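import Mathlib

/-!
# The entropy inequality (VE) of helper79 for one antichain: chain rule and contraction

`F` is a family of sets, `S` a finite ground set, only the traces `A ∩ S` matter (`Rel S F`: the
traces of different members are incomparable).  `ν ≥ 0` is a weight on `F`.

* `DD S F ν = Σ ν(A) ln (ν(A) C(n,a) / T)` (`n = |S|`, `a = |A ∩ S|`, `T` the total weight);
* `PP S F ν x y` = the weight of the event that the random element of `A` is `x` and the random
  element of the complement is `y`, `HH` its entropy relative to the uniform distribution.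

Chain rule: `DD S F ν = HH S F ν + Σ_{x ≠ y} DD (S - x - y) (F_{x,y}) (ν / (a (n - a)))`.
Contraction: the sum of the `HH` of the sections is at least `(1 - ε) HH S F ν`,
`ε = 4 (B + 1) / ((n - 2)(n - 3))`, `B = n (n - 1) / (r (n - r))` if `r ≤ a ≤ n - r` for all members.
-/

set_option autoImplicit false

namespace Pool.Agent.VE

open Finset Real

variable {α : Type*} [DecidableEq α]

/-- relative size -/
def rk (S A : Finset α) : ℕ := (A ∩ S).card

/-- the traces of different members are incomparable -/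
def Rel (S : Finset α) (F : Finset (Finset α)) : Prop :=
  ∀ A ∈ F, ∀ B ∈ F, A ∩ S ⊆ B ∩ S → A = B

/-- total weight -/
def TT (F : Finset (Finset α)) (ν : Finset α → ℝ) : ℝ := ∑ A ∈ F, ν A

/-- members containing `p.1` and not `p.2` -/
def sec (F : Finset (Finset α)) (p : α × α) : Finset (Finset α) :=
  F.filter fun A => p.1 ∈ A ∧ p.2 ∉ A

/-- remaining ground set -/
def rem (S : Finset α) (p : α × α) : Finset α := (S.erase p.1).erase p.2

/-- the weight of the section -/
noncomputable def wt (S : Finset α) (ν : Finset α → ℝ) (A : Finset α) : ℝ :=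
  ν A / ((rk S A : ℝ) * ((S.card : ℝ) - rk S A))

/-- the pair law -/
noncomputable def PP (S : Finset α) (F : Finset (Finset α)) (ν : Finset α → ℝ) (p : α × α) : ℝ :=
  TT (sec F p) (wt S ν)

/-- entropy of the weight relative to the uniform distributions of the levels -/
noncomputable def DD (S : Finset α) (F : Finset (Finset α)) (ν : Finset α → ℝ) : ℝ :=
  ∑ A ∈ F, ν A * (log (ν A) + log (S.card.choose (rk S A)) - log (TT F ν))

/-- entropy of the pair law relative to the uniform distribution -/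
noncomputable def HH (S : Finset α) (F : Finset (Finset α)) (ν : Finset α → ℝ) : ℝ :=
  ∑ p ∈ S.offDiag, PP S F ν p *
    (log (PP S F ν p) + log ((S.card : ℝ) * ((S.card : ℝ) - 1)) - log (TT F ν))

theorem Rel.sec {S : Finset α} {F : Finset (Finset α)} (h : Rel S F) (p : α × α) :
    Rel (rem S p) (sec F p) := by
  intro A hA B hB hAB
  rw [VE.sec, mem_filter] at hA hB
  refine h A hA.1 B hB.1 ?_
  intro z hz
  rw [mem_inter] at hz ⊢
  refine ⟨?_, hz.2⟩
  by_cases h1 : z = p.1
  · rw [h1]; exact hB.2.1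
  · by_cases h2 : z = p.2
    · rw [h2] at hz; exact absurd hz.1 hA.2.2
    · have h3 : z ∈ A ∩ rem S p := by
        rw [mem_inter, rem, mem_erase, mem_erase]
        exact ⟨hz.1, h2, h1, hz.2⟩
      exact (mem_inter.1 (hAB h3)).1

theorem card_rem {S : Finset α} {p : α × α} (hp : p ∈ S.offDiag) :
    (rem S p).card + 2 = S.card := by
  rw [mem_offDiag] at hp
  have h1 := card_erase_add_one hp.1
  have h2 := card_erase_add_one (mem_erase.2 ⟨hp.2.2.symm, hp.2.1⟩ : p.2 ∈ S.erase p.1)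
  unfold rem
  omega

theorem rk_le (S A : Finset α) : rk S A ≤ S.card := card_le_card inter_subset_right

theorem rk_rem {S : Finset α} {F : Finset (Finset α)} {p : α × α} (hp : p ∈ S.offDiag)
    {A : Finset α} (hA : A ∈ sec F p) : rk (rem S p) A + 1 = rk S A := by
  rw [sec, mem_filter] at hA
  rw [mem_offDiag] at hp
  have h1 : A ∩ rem S p = (A ∩ S).erase p.1 := by
    ext z
    rw [mem_inter, rem, mem_erase, mem_erase, mem_erase, mem_inter]
    constructor
    · rintro ⟨h1, _, h3, h4⟩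
      exact ⟨h3, h1, h4⟩
    · rintro ⟨h1, h2, h3⟩
      refine ⟨h2, ?_, h1, h3⟩
      intro h4
      rw [h4] at h2
      exact hA.2.2 h2
  unfold rk
  rw [h1]
  exact card_erase_add_one (mem_inter.2 ⟨hA.2.1, hp.1⟩)

/-- the pairs `x ∈ A`, `y ∉ A` -/
theorem filter_pairs (S A : Finset α) :
    (S.offDiag.filter fun p => p.1 ∈ A ∧ p.2 ∉ A) = (A ∩ S) ×ˢ (S \ A) := by
  ext p
  rw [mem_filter, mem_offDiag, mem_product, mem_inter, mem_sdiff]
  constructor
  · rintro ⟨⟨h1, h2, h3⟩, h4, h5⟩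
    exact ⟨⟨h4, h1⟩, h2, h5⟩
  · rintro ⟨⟨h4, h1⟩, h2, h5⟩
    refine ⟨⟨h1, h2, ?_⟩, h4, h5⟩
    intro h
    rw [h] at h4
    exact h5 h4

theorem card_pairs (S A : Finset α) :
    ((S.offDiag.filter fun p => p.1 ∈ A ∧ p.2 ∉ A).card : ℝ) =
      (rk S A : ℝ) * ((S.card : ℝ) - rk S A) := by
  rw [filter_pairs, card_product]
  have h1 : (S \ A).card + rk S A = S.card := by
    rw [rk, inter_comm]
    exact card_sdiff_add_card_inter S A
  have h2 : ((S \ A).card : ℝ) = (S.card : ℝ) - rk S A := by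
    rw [← h1]
    push_cast
    ring
  rw [Nat.cast_mul, h2]
  rfl

theorem sum_exch (S : Finset α) (F : Finset (Finset α)) (f : α × α → Finset α → ℝ) :
    ∑ p ∈ S.offDiag, ∑ A ∈ sec F p, f p A =
      ∑ A ∈ F, ∑ p ∈ S.offDiag.filter (fun p => p.1 ∈ A ∧ p.2 ∉ A), f p A := by
  apply sum_comm'
  intro p A
  rw [sec, mem_filter, mem_filter]
  tauto

theorem sum_exch_const (S : Finset α) (F : Finset (Finset α)) (f : Finset α → ℝ) :
    ∑ p ∈ S.offDiag, ∑ A ∈ sec F p, f A =
      ∑ A ∈ F, (rk S A : ℝ) * ((S.card : ℝ) - rk S A) * f A := by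
  rw [sum_exch S F fun _ A => f A]
  refine sum_congr rfl fun A _ => ?_
  rw [sum_const, nsmul_eq_mul, card_pairs]

theorem wt_nonneg {S : Finset α} {ν : Finset α → ℝ} {A : Finset α} (h : 0 ≤ ν A) :
    0 ≤ wt S ν A := by
  unfold wt
  have h1 : (rk S A : ℝ) ≤ S.card := by exact_mod_cast rk_le S A
  have h2 : (0 : ℝ) ≤ (S.card : ℝ) - rk S A := by linarith
  positivity

theorem PP_nonneg {S : Finset α} {F : Finset (Finset α)} {ν : Finset α → ℝ}
    (h : ∀ A ∈ F, 0 ≤ ν A) (p : α × α) : 0 ≤ PP S F ν p :=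
  sum_nonneg fun A hA => wt_nonneg (h A (mem_filter.1 hA).1)

theorem sizes_pos {S : Finset α} {A : Finset α} {r : ℕ} (hr : 1 ≤ r) (h1 : r ≤ rk S A)
    (h2 : rk S A + r ≤ S.card) : (0 : ℝ) < (rk S A : ℝ) * ((S.card : ℝ) - rk S A) := by
  have h3 : (1 : ℝ) ≤ rk S A := by exact_mod_cast hr.trans h1
  have h4 : (rk S A : ℝ) + 1 ≤ S.card := by
    have : rk S A + 1 ≤ S.card := by omega
    exact_mod_cast this
  apply mul_pos <;> linarith

theorem sum_PP {S : Finset α} {F : Finset (Finset α)} {ν : Finset α → ℝ} {r : ℕ} (hr : 1 ≤ r)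
    (hs : ∀ A ∈ F, r ≤ rk S A ∧ rk S A + r ≤ S.card) :
    ∑ p ∈ S.offDiag, PP S F ν p = TT F ν := by
  unfold PP TT
  rw [sum_exch_const]
  refine sum_congr rfl fun A hA => ?_
  have h := sizes_pos hr (hs A hA).1 (hs A hA).2
  unfold wt
  rw [mul_div_cancel₀ _ h.ne']

/-- binomial identity -/
theorem choose_id {n a : ℕ} (h1 : 1 ≤ a) (h2 : a + 1 ≤ n) :
    ((n - 2).choose (a - 1) : ℝ) * ((n : ℝ) * ((n : ℝ) - 1)) =
      (n.choose a : ℝ) * ((a : ℝ) * ((n : ℝ) - a)) := by
  obtain ⟨b, rfl⟩ : ∃ b, a = b + 1 := ⟨a - 1, by omega⟩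
  obtain ⟨m, rfl⟩ : ∃ m, n = m + 2 := ⟨n - 2, by omega⟩
  have e1 : ((m + 1 : ℕ) + 1) * (m + 1).choose b = (m + 2).choose (b + 1) * (b + 1) :=
    Nat.add_one_mul_choose_eq (m + 1) b
  have e2 : m.choose b * (m + 1) = (m + 1).choose b * (m + 1 - b) := Nat.choose_mul_succ_eq m b
  have e1' : ((m : ℝ) + 1 + 1) * ((m + 1).choose b : ℝ) =
      ((m + 2).choose (b + 1) : ℝ) * ((b : ℝ) + 1) := by exact_mod_cast e1
  have e2' : (m.choose b : ℝ) * ((m : ℝ) + 1) = ((m + 1).choose b : ℝ) * ((m : ℝ) + 1 - b) := by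
    have : ((m.choose b * (m + 1) : ℕ) : ℝ) = (((m + 1).choose b * (m + 1 - b) : ℕ) : ℝ) := by
      rw [e2]
    rw [Nat.cast_mul, Nat.cast_mul, Nat.cast_sub (by omega)] at this
    push_cast at this
    exact this
  simp only [Nat.add_sub_cancel]
  push_cast
  linear_combination ((m : ℝ) + 2) * e2' + ((m : ℝ) + 1 - b) * e1'

theorem chain_rule {S : Finset α} {F : Finset (Finset α)} {ν : Finset α → ℝ} {r : ℕ}
    (hr : 1 ≤ r) (hν : ∀ A ∈ F, 0 ≤ ν A)
    (hs : ∀ A ∈ F, r ≤ rk S A ∧ rk S A + r ≤ S.card) :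
    DD S F ν = HH S F ν + ∑ p ∈ S.offDiag, DD (rem S p) (sec F p) (wt S ν) := by
  set n : ℝ := (S.card : ℝ) with hn
  have key : HH S F ν + ∑ p ∈ S.offDiag, DD (rem S p) (sec F p) (wt S ν) =
      ∑ p ∈ S.offDiag, ∑ A ∈ sec F p, wt S ν A * (log (wt S ν A) +
        log ((S.card - 2).choose (rk S A - 1)) + log (n * (n - 1)) - log (TT F ν)) := by
    unfold HH
    rw [← sum_add_distrib]
    refine sum_congr rfl fun p hp => ?_
    have h1 : PP S F ν p = ∑ A ∈ sec F p, wt S ν A := rfl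
    have h2 : PP S F ν p * (log (PP S F ν p) + log (n * (n - 1)) - log (TT F ν)) =
        ∑ A ∈ sec F p, wt S ν A * (log (PP S F ν p) + log (n * (n - 1)) - log (TT F ν)) := by
      rw [← sum_mul, ← h1]
    rw [h2]
    unfold DD
    rw [← sum_add_distrib]
    refine sum_congr rfl fun A hA => ?_
    have h3 := rk_rem hp hA
    have h4 := card_rem hp
    have h5 : (rem S p).card = S.card - 2 := by omega
    have h6 : rk (rem S p) A = rk S A - 1 := by omega
    have h7 : TT (sec F p) (wt S ν) = PP S F ν p := rfl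
    rw [h5, h6, h7]
    ring
  rw [key, sum_exch_const S F fun A => wt S ν A * (log (wt S ν A) +
        log ((S.card - 2).choose (rk S A - 1)) + log (n * (n - 1)) - log (TT F ν))]
  unfold DD
  refine sum_congr rfl fun A hA => ?_
  have hp := sizes_pos hr (hs A hA).1 (hs A hA).2
  have h1 : (rk S A : ℝ) * ((S.card : ℝ) - rk S A) * wt S ν A = ν A := by
    unfold wt
    rw [mul_div_cancel₀ _ hp.ne']
  rw [← mul_assoc, h1]
  rcases (hν A hA).eq_or_lt with h0 | h0
  · rw [← h0]; ring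
  · congr 1
    have ha1 : 1 ≤ rk S A := hr.trans (hs A hA).1
    have ha2 : rk S A + 1 ≤ S.card := by have := (hs A hA).2; omega
    have hid := choose_id ha1 ha2
    have hnpos : (0 : ℝ) < n * (n - 1) := by
      have h3 : (2 : ℝ) ≤ n := by
        rw [hn]
        have : 2 ≤ S.card := by omega
        exact_mod_cast this
      apply mul_pos <;> linarith
    have hc1 : (0 : ℝ) < ((S.card - 2).choose (rk S A - 1) : ℝ) := by
      exact_mod_cast Nat.choose_pos (by omega)
    have hc2 : (0 : ℝ) < (S.card.choose (rk S A) : ℝ) := by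
      exact_mod_cast Nat.choose_pos (by omega)
    have hl := congrArg Real.log hid
    rw [Real.log_mul hc1.ne' hnpos.ne', Real.log_mul hc2.ne' hp.ne'] at hl
    have hw : log (wt S ν A) = log (ν A) - log ((rk S A : ℝ) * ((S.card : ℝ) - rk S A)) := by
      unfold wt
      rw [Real.log_div h0.ne' hp.ne']
    rw [hw]
    linarith

/-- LYM for traces -/
theorem lym {S : Finset α} {F : Finset (Finset α)} (h : Rel S F) :
    ∑ A ∈ F, (1 : ℝ) / (S.card.choose (rk S A)) ≤ 1 := by
  classical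
  set f : Finset α → Finset S := fun A => A.subtype (· ∈ S) with hf
  have hmap : ∀ A, (f A).map (Function.Embedding.subtype _) = A ∩ S := by
    intro A
    rw [hf]
    simp only [Finset.subtype_map]
    exact filter_mem_eq_inter
  have hinj : Set.InjOn f (F : Set (Finset α)) := by
    intro A hA B hB hAB
    refine h A hA B hB ?_
    rw [← hmap A, ← hmap B, hAB]
  have hcard : ∀ A, (f A).card = rk S A := by
    intro A
    rw [rk, ← hmap A, card_map]
  have hanti : IsAntichain (· ⊆ ·) ((F.image f : Finset (Finset S)) : Set (Finset S)) := by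
    intro A' hA' B' hB' hne hsub
    simp only [coe_image, Set.mem_image, mem_coe] at hA' hB'
    obtain ⟨A, hA, rfl⟩ := hA'
    obtain ⟨B, hB, rfl⟩ := hB'
    refine hne (congrArg f (h A hA B hB ?_))
    rw [← hmap A, ← hmap B]
    exact Finset.map_subset_map.2 hsub
  have h1 := Finset.lubell_yamamoto_meshalkin_inequality_sum_inv_choose (𝕜 := ℝ) hanti
  rw [Finset.sum_image hinj] at h1
  refine le_trans (le_of_eq ?_) h1
  refine sum_congr rfl fun A _ => ?_
  rw [hcard A, Fintype.card_coe, one_div]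

theorem one_sub_inv_le (t : ℝ) (ht : 0 < t) : 1 - 1 / t ≤ log t := by
  have h := Real.log_le_sub_one_of_pos (inv_pos.2 ht)
  rw [Real.log_inv] at h
  rw [one_div]
  linarith

theorem DD_nonneg {S : Finset α} {F : Finset (Finset α)} {ν : Finset α → ℝ} (hF : Rel S F)
    (hν : ∀ A ∈ F, 0 ≤ ν A) : 0 ≤ DD S F ν := by
  set T := TT F ν with hT
  have hT0 : 0 ≤ T := sum_nonneg hν
  rcases hT0.eq_or_lt with h0 | h0
  · have h1 : ∀ A ∈ F, ν A = 0 := by
      intro A hA
      exact (sum_eq_zero_iff_of_nonneg hν).1 h0.symm A hA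
    unfold DD
    refine (sum_eq_zero fun A hA => ?_).ge
    rw [h1 A hA, zero_mul]
  · have h1 : ∀ A ∈ F, ν A - T * (1 / (S.card.choose (rk S A) : ℝ)) ≤
        ν A * (log (ν A) + log (S.card.choose (rk S A)) - log T) := by
      intro A hA
      have hc : (0 : ℝ) < (S.card.choose (rk S A) : ℝ) := by
        exact_mod_cast Nat.choose_pos (rk_le S A)
      rcases (hν A hA).eq_or_lt with h2 | h2
      · rw [← h2, zero_mul]
        have : 0 ≤ T * (1 / (S.card.choose (rk S A) : ℝ)) := by positivity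
        linarith
      · have h3 := one_sub_inv_le (ν A * (S.card.choose (rk S A)) / T) (by positivity)
        rw [Real.log_div (by positivity) h0.ne', Real.log_mul h2.ne' hc.ne'] at h3
        have h4 := mul_le_mul_of_nonneg_left h3 h2.le
        refine le_trans (le_of_eq ?_) h4
        field_simp
    have h2 := sum_le_sum h1
    rw [sum_sub_distrib, ← mul_sum] at h2
    have h3 := lym hF
    have h4 : ∑ A ∈ F, ν A = T := rfl
    have h5 : T * ∑ A ∈ F, (1 : ℝ) / (S.card.choose (rk S A)) ≤ T * 1 :=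
      mul_le_mul_of_nonneg_left h3 h0.le
    unfold DD
    linarith

/-! ### Contraction -/

/-- weight of two disjoint pairs -/
noncomputable def JJ (S : Finset α) (F : Finset (Finset α)) (ν : Finset α → ℝ) (p q : α × α) : ℝ :=
  PP (rem S p) (sec F p) (wt S ν) q

theorem mem_D {S : Finset α} {p q : α × α} :
    p ∈ S.offDiag ∧ q ∈ (rem S p).offDiag ↔ q ∈ S.offDiag ∧ p ∈ (rem S q).offDiag := by
  simp only [mem_offDiag, rem, mem_erase]
  constructor
  · rintro ⟨⟨h1, h2, h3⟩, ⟨h4, h5, h6⟩, ⟨h7, h8, h9⟩, h10⟩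
    exact ⟨⟨h6, h9, h10⟩, ⟨h8.symm, h5.symm, h1⟩, ⟨h7.symm, h4.symm, h2⟩, h3⟩
  · rintro ⟨⟨h1, h2, h3⟩, ⟨h4, h5, h6⟩, ⟨h7, h8, h9⟩, h10⟩
    exact ⟨⟨h6, h9, h10⟩, ⟨h8.symm, h5.symm, h1⟩, ⟨h7.symm, h4.symm, h2⟩, h3⟩

theorem sum_D_symm (S : Finset α) (f : α × α → α × α → ℝ) :
    ∑ p ∈ S.offDiag, ∑ q ∈ (rem S p).offDiag, f p q =
      ∑ p ∈ S.offDiag, ∑ q ∈ (rem S p).offDiag, f q p :=
  sum_comm' fun _ _ => by rw [mem_D, and_comm]

theorem sec_sec (F : Finset (Finset α)) (p q : α × α) :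
    sec (sec F p) q = sec (sec F q) p := by
  ext A
  simp only [sec, mem_filter]
  tauto

theorem JJ_symm {S : Finset α} {F : Finset (Finset α)} {ν : Finset α → ℝ} {p q : α × α}
    (hp : p ∈ S.offDiag) (hq : q ∈ (rem S p).offDiag) : JJ S F ν p q = JJ S F ν q p := by
  have h := mem_D.1 ⟨hp, hq⟩
  unfold JJ PP TT
  rw [sec_sec]
  refine sum_congr rfl fun A hA => ?_
  have hA1 : A ∈ sec F q := (mem_filter.1 hA).1
  have hA2 : A ∈ sec F p := by
    rw [sec_sec] at hA
    exact (mem_filter.1 hA).1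
  have h1 := rk_rem hp hA2
  have h2 := rk_rem h.1 hA1
  have h3 := card_rem hp
  have h4 := card_rem h.1
  have h5 : rk (rem S p) A = rk (rem S q) A := by omega
  have h6 : (rem S p).card = (rem S q).card := by omega
  unfold wt
  rw [h5, h6]

theorem sizes_rem {S : Finset α} {F : Finset (Finset α)} {r : ℕ} {p : α × α}
    (hp : p ∈ S.offDiag) (hs : ∀ A ∈ F, r + 1 ≤ rk S A ∧ rk S A + (r + 1) ≤ S.card) :
    ∀ A ∈ sec F p, r ≤ rk (rem S p) A ∧ rk (rem S p) A + r ≤ (rem S p).card := by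
  intro A hA
  have h1 := rk_rem hp hA
  have h2 := card_rem hp
  have h3 := hs A (mem_filter.1 hA).1
  omega

theorem sum_JJ {S : Finset α} {F : Finset (Finset α)} {ν : Finset α → ℝ} {r : ℕ} (hr : 1 ≤ r)
    (hs : ∀ A ∈ F, r + 1 ≤ rk S A ∧ rk S A + (r + 1) ≤ S.card) {p : α × α}
    (hp : p ∈ S.offDiag) :
    ∑ q ∈ (rem S p).offDiag, JJ S F ν p q = PP S F ν p :=
  sum_PP hr (sizes_rem hp hs)

/-- number of common elements -/
def ov (p q : α × α) : ℝ :=
  (if p.1 = q.1 then 1 else 0) + (if p.1 = q.2 then 1 else 0) + (if p.2 = q.1 then 1 else 0) +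
    (if p.2 = q.2 then 1 else 0)

theorem ov_swap_aux {S : Finset α} {p q : α × α} (hp : p ∈ S.offDiag) (hq : q ∈ S.offDiag) :
    (if q ∈ (rem S p).offDiag then (1 : ℝ) else 0) =
      1 - ov p q + (if q = p then 1 else 0) + (if q = (p.2, p.1) then 1 else 0) := by
  obtain ⟨a, b⟩ := p
  obtain ⟨c, d⟩ := q
  rw [mem_offDiag] at hp hq
  obtain ⟨hp1, hp2, hp3⟩ := hp
  obtain ⟨hq1, hq2, hq3⟩ := hq
  simp only [mem_offDiag, rem, mem_erase, ov, Prod.mk.injEq]
  dsimp only at hp1 hp2 hp3 hq1 hq2 hq3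
  by_cases h1 : a = c
  · subst h1
    by_cases h2 : b = d
    · subst h2
      simp [hp3, hp3.symm]
    · simp [hp3, hp3.symm, h2, Ne.symm h2, hq3, hq3.symm]
  · by_cases h2 : a = d
    · subst h2
      by_cases h3 : b = c
      · subst h3
        simp [hp3, hp3.symm]
      · simp [hp3, hp3.symm, h1, Ne.symm h1, h3, Ne.symm h3]
    · by_cases h3 : b = c
      · subst h3
        simp [hp3, hp3.symm, h2, Ne.symm h2, hq3]
      · by_cases h4 : b = d
        · subst h4
          simp [hp3, hp3.symm, h1, Ne.symm h1, h3, Ne.symm h3]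
        · simp [h1, Ne.symm h1, h2, Ne.symm h2, h3, Ne.symm h3, h4, Ne.symm h4, hq1, hq2, hq3]

/-- marginal at the element `z` -/
noncomputable def hz (S : Finset α) (P : α × α → ℝ) (z : α) : ℝ :=
  ∑ q ∈ S.offDiag, P q * ((if z = q.1 then 1 else 0) + (if z = q.2 then 1 else 0))

theorem sum_hz (S : Finset α) (P : α × α → ℝ) :
    ∑ z ∈ S, hz S P z = 2 * ∑ q ∈ S.offDiag, P q := by
  unfold hz
  rw [sum_comm, mul_sum]
  refine sum_congr rfl fun q hq => ?_
  rw [mem_offDiag] at hq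
  rw [← mul_sum, sum_add_distrib, sum_ite_eq' S q.1, sum_ite_eq' S q.2, if_pos hq.1,
    if_pos hq.2.1]
  ring

theorem sum_mul_hz (S : Finset α) (P : α × α → ℝ) (u : α → ℝ) :
    ∑ p ∈ S.offDiag, P p * (u p.1 + u p.2) = ∑ z ∈ S, u z * hz S P z := by
  unfold hz
  simp_rw [mul_sum]
  rw [sum_comm]
  refine sum_congr rfl fun q hq => ?_
  rw [mem_offDiag] at hq
  have h1 : ∀ z ∈ S, u z * (P q * ((if z = q.1 then (1 : ℝ) else 0) +
      (if z = q.2 then 1 else 0))) =
      (if z = q.1 then u z * P q else 0) + (if z = q.2 then u z * P q else 0) := by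
    intro z _
    split_ifs <;> ring
  rw [sum_congr rfl h1, sum_add_distrib, sum_ite_eq' S q.1, sum_ite_eq' S q.2, if_pos hq.1,
    if_pos hq.2.1]
  ring

theorem sum_ov (S : Finset α) (P : α × α → ℝ) :
    ∑ p ∈ S.offDiag, ∑ q ∈ S.offDiag, P p * P q * ov p q = ∑ z ∈ S, hz S P z ^ 2 := by
  have h1 : ∀ p ∈ S.offDiag, ∑ q ∈ S.offDiag, P p * P q * ov p q =
      P p * (hz S P p.1 + hz S P p.2) := by
    intro p _
    unfold hz
    rw [← sum_add_distrib, mul_sum]
    refine sum_congr rfl fun q _ => ?_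
    unfold ov
    ring
  rw [sum_congr rfl h1, sum_mul_hz]
  exact sum_congr rfl fun z _ => by ring

omit [DecidableEq α] in
theorem sum_swap (S : Finset α) (f : α × α → ℝ) :
    ∑ p ∈ S.offDiag, f (p.2, p.1) = ∑ p ∈ S.offDiag, f p := by
  refine sum_nbij' (fun p => (p.2, p.1)) (fun p => (p.2, p.1)) ?_ ?_ ?_ ?_ ?_
  · intro p hp
    rw [mem_offDiag] at hp ⊢
    exact ⟨hp.2.1, hp.1, hp.2.2.symm⟩
  · intro p hp
    rw [mem_offDiag] at hp ⊢
    exact ⟨hp.2.1, hp.1, hp.2.2.symm⟩
  · intro p _; rfl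
  · intro p _; rfl
  · intro p _; rfl

theorem sum_disjoint_le (S : Finset α) (hS : 1 ≤ S.card) (P : α × α → ℝ) :
    ∑ p ∈ S.offDiag, ∑ q ∈ (rem S p).offDiag, P p * P q ≤
      (∑ p ∈ S.offDiag, P p) ^ 2 * (1 - 4 / S.card) + 2 * ∑ p ∈ S.offDiag, P p ^ 2 := by
  set T := ∑ p ∈ S.offDiag, P p with hT
  have hn : (0 : ℝ) < S.card := by exact_mod_cast hS
  have h1 : ∑ p ∈ S.offDiag, ∑ q ∈ (rem S p).offDiag, P p * P q =
      ∑ p ∈ S.offDiag, ∑ q ∈ S.offDiag, P p * P q * (1 - ov p q + (if q = p then 1 else 0) +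
        (if q = (p.2, p.1) then 1 else 0)) := by
    refine sum_congr rfl fun p hp => ?_
    have hsub : (rem S p).offDiag ⊆ S.offDiag :=
      offDiag_mono ((erase_subset _ _).trans (erase_subset _ _))
    rw [← sum_subset hsub (f := fun q => P p * P q * (1 - ov p q + (if q = p then 1 else 0) +
        (if q = (p.2, p.1) then 1 else 0)))]
    · refine sum_congr rfl fun q hq => ?_
      rw [← ov_swap_aux hp (hsub hq), if_pos hq, mul_one]
    · intro q hq hq2
      rw [← ov_swap_aux hp hq, if_neg hq2, mul_zero]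
  have h2 : ∑ p ∈ S.offDiag, ∑ q ∈ S.offDiag, P p * P q * (1 - ov p q +
      (if q = p then 1 else 0) + (if q = (p.2, p.1) then 1 else 0)) =
      T ^ 2 - ∑ z ∈ S, hz S P z ^ 2 + ∑ p ∈ S.offDiag, P p ^ 2 +
        ∑ p ∈ S.offDiag, P p * P (p.2, p.1) := by
    rw [← sum_ov]
    have h3 : ∀ p ∈ S.offDiag, ∑ q ∈ S.offDiag, P p * P q * (1 - ov p q +
        (if q = p then 1 else 0) + (if q = (p.2, p.1) then 1 else 0)) =
        P p * T - ∑ q ∈ S.offDiag, P p * P q * ov p q + P p ^ 2 + P p * P (p.2, p.1) := by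
      intro p hp
      have hp' : (p.2, p.1) ∈ S.offDiag := by
        rw [mem_offDiag] at hp ⊢
        exact ⟨hp.2.1, hp.1, hp.2.2.symm⟩
      have h4 : ∀ q ∈ S.offDiag, P p * P q * (1 - ov p q +
          (if q = p then 1 else 0) + (if q = (p.2, p.1) then 1 else 0)) =
          P p * P q - P p * P q * ov p q + (if q = p then P p * P q else 0) +
            (if q = (p.2, p.1) then P p * P q else 0) := by
        intro q _
        split_ifs <;> ring
      rw [sum_congr rfl h4, sum_add_distrib, sum_add_distrib, sum_sub_distrib,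
        sum_ite_eq' S.offDiag p, sum_ite_eq' S.offDiag (p.2, p.1), if_pos hp, if_pos hp',
        ← mul_sum]
      ring
    rw [sum_congr rfl h3, sum_add_distrib, sum_add_distrib, sum_sub_distrib, ← sum_mul]
    ring
  have h5 : 4 * T ^ 2 / S.card ≤ ∑ z ∈ S, hz S P z ^ 2 := by
    have h6 := sum_hz S P
    have h7 := sq_sum_le_card_mul_sum_sq (s := S) (f := hz S P)
    rw [h6] at h7
    rw [div_le_iff₀ hn]
    nlinarith
  have h8 : ∑ p ∈ S.offDiag, P p * P (p.2, p.1) ≤ ∑ p ∈ S.offDiag, P p ^ 2 := by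
    have h9 : ∑ p ∈ S.offDiag, P p * P (p.2, p.1) ≤
        ∑ p ∈ S.offDiag, (P p ^ 2 / 2 + P (p.2, p.1) ^ 2 / 2) :=
      sum_le_sum fun p _ => by nlinarith [sq_nonneg (P p - P (p.2, p.1))]
    rw [sum_add_distrib, sum_swap S fun p => P p ^ 2 / 2, ← sum_add_distrib] at h9
    refine h9.trans (le_of_eq (sum_congr rfl fun p _ => by ring))
  rw [h1, h2]
  have h10 : T ^ 2 * (1 - 4 / S.card) = T ^ 2 - 4 * T ^ 2 / S.card := by ring
  rw [h10]
  linarith

/-- `(g - 1)² ≤ 2 (B + 1) (g ln g - g + 1)` for `0 ≤ g ≤ B` -/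
theorem sq_le_phi {g B : ℝ} (h0 : 0 ≤ g) (hB : g ≤ B) :
    (g - 1) ^ 2 ≤ 2 * (B + 1) * (g * log g - g + 1) := by
  set s := Real.sqrt g with hs
  have hs0 : 0 ≤ s := Real.sqrt_nonneg g
  have hss : s ^ 2 = g := Real.sq_sqrt h0
  have h1 : (s - 1) ^ 2 ≤ g * log g - g + 1 := by
    rcases hs0.eq_or_lt with h2 | h2
    · have h3 : g = 0 := by rw [← hss, ← h2]; ring
      rw [← h2, h3]
      norm_num
    · have h3 : log g = 2 * log s := by
        rw [← hss, Real.log_pow]
        norm_num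
      have h4 := one_sub_inv_le s h2
      have h5 : s - 1 ≤ s * log s := by
        have h6 := mul_le_mul_of_nonneg_left h4 h2.le
        rw [mul_sub, mul_one_div_cancel h2.ne', mul_one] at h6
        exact h6
      rw [h3, ← hss]
      nlinarith [mul_le_mul_of_nonneg_left h5 h2.le]
  have h7 : (g - 1) ^ 2 = (s - 1) ^ 2 * (s + 1) ^ 2 := by rw [← hss]; ring
  have h8 : (s + 1) ^ 2 ≤ 2 * (B + 1) := by nlinarith [sq_nonneg (s - 1)]
  rw [h7, mul_comm]
  have h9 : 0 ≤ (s - 1) ^ 2 := sq_nonneg _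
  exact mul_le_mul h8 h1 h9 (by linarith)

theorem PP_le {S : Finset α} {F : Finset (Finset α)} {ν : Finset α → ℝ} {r : ℕ} (hr : 1 ≤ r)
    (hν : ∀ A ∈ F, 0 ≤ ν A) (hs : ∀ A ∈ F, r ≤ rk S A ∧ rk S A + r ≤ S.card) (p : α × α) :
    PP S F ν p ≤ TT F ν / ((r : ℝ) * ((S.card : ℝ) - r)) := by
  unfold PP TT sec
  rw [sum_div]
  refine (sum_le_sum_of_subset_of_nonneg (filter_subset _ _) fun A hA _ =>
    wt_nonneg (hν A hA)).trans (sum_le_sum fun A hA => ?_)
  unfold wt
  obtain ⟨h1, h2⟩ := hs A hA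
  have h3 : (1 : ℝ) ≤ r := by exact_mod_cast hr
  have h4 : (r : ℝ) ≤ rk S A := by exact_mod_cast h1
  have h5 : (rk S A : ℝ) + r ≤ S.card := by exact_mod_cast h2
  apply div_le_div_of_nonneg_left (hν A hA)
  · nlinarith
  · nlinarith

/-- second moment of the pair law -/
theorem sq_PP_le {S : Finset α} {F : Finset (Finset α)} {ν : Finset α → ℝ} {r : ℕ} (hr : 1 ≤ r)
    (hν : ∀ A ∈ F, 0 ≤ ν A) (hs : ∀ A ∈ F, r ≤ rk S A ∧ rk S A + r ≤ S.card)
    (hT : 0 < TT F ν) {B : ℝ}
    (hB : (S.card : ℝ) * ((S.card : ℝ) - 1) / ((r : ℝ) * ((S.card : ℝ) - r)) ≤ B) :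
    (S.card : ℝ) * ((S.card : ℝ) - 1) * (∑ p ∈ S.offDiag, PP S F ν p ^ 2) / TT F ν - TT F ν ≤
      2 * (B + 1) * HH S F ν := by
  set n : ℝ := (S.card : ℝ) with hn
  set T := TT F ν with hTdef
  obtain ⟨A0, hA0⟩ : F.Nonempty := by
    rcases F.eq_empty_or_nonempty with h | h
    · exfalso
      rw [hTdef, h, TT, sum_empty] at hT
      exact lt_irrefl _ hT
    · exact h
  have hn2 : (2 : ℝ) ≤ n := by
    have h1 := hs A0 hA0
    have : 2 ≤ S.card := by omega
    rw [hn]
    exact_mod_cast this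
  have hN : 0 < n * (n - 1) := by apply mul_pos <;> linarith
  have hcard : ((S.offDiag.card : ℕ) : ℝ) = n * (n - 1) := by
    rw [offDiag_card, Nat.cast_sub (Nat.le_mul_self _)]
    push_cast
    ring
  have hsum := sum_PP (ν := ν) hr hs
  set g : α × α → ℝ := fun p => n * (n - 1) * PP S F ν p / T with hg
  have hg0 : ∀ p, 0 ≤ g p := fun p => by
    have := PP_nonneg (S := S) hν p
    rw [hg]
    positivity
  have hgB : ∀ p, g p ≤ B := by
    intro p
    refine le_trans ?_ hB
    have h1 := PP_le hr hν hs p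
    have h2 : 0 < (r : ℝ) * (n - r) := by
      have h3 : (1 : ℝ) ≤ r := by exact_mod_cast hr
      have h4 := hs A0 hA0
      have h5 : (r : ℝ) + r ≤ n := by
        have : r + r ≤ S.card := by omega
        rw [hn]
        exact_mod_cast this
      apply mul_pos <;> linarith
    rw [hg]
    dsimp only
    rw [div_le_div_iff₀ hT h2]
    rw [le_div_iff₀ h2] at h1
    calc n * (n - 1) * PP S F ν p * ((r : ℝ) * (n - r))
        = n * (n - 1) * (PP S F ν p * ((r : ℝ) * (n - r))) := by ring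
      _ ≤ n * (n - 1) * T := mul_le_mul_of_nonneg_left h1 hN.le
  have h1 := sum_le_sum (s := S.offDiag) fun p _ => sq_le_phi (hg0 p) (hgB p)
  have hgs : ∑ p ∈ S.offDiag, g p = n * (n - 1) := by
    rw [hg]
    dsimp only
    rw [← sum_div, ← mul_sum, hsum, mul_div_cancel_right₀ _ hT.ne']
  have hl : ∑ p ∈ S.offDiag, (g p - 1) ^ 2 =
      (n * (n - 1)) ^ 2 * (∑ p ∈ S.offDiag, PP S F ν p ^ 2) / T ^ 2 - n * (n - 1) := by
    have h2 : ∀ p ∈ S.offDiag, (g p - 1) ^ 2 = g p ^ 2 - 2 * g p + 1 := fun p _ => by ring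
    rw [sum_congr rfl h2, sum_add_distrib, sum_sub_distrib, ← mul_sum, hgs, sum_const,
      nsmul_eq_mul, hcard, mul_one]
    have h3 : ∑ p ∈ S.offDiag, g p ^ 2 =
        (n * (n - 1)) ^ 2 * (∑ p ∈ S.offDiag, PP S F ν p ^ 2) / T ^ 2 := by
      rw [mul_sum, sum_div]
      refine sum_congr rfl fun p _ => ?_
      rw [hg]
      dsimp only
      rw [div_pow, mul_pow]
    rw [h3]
    ring
  have hr2 : ∑ p ∈ S.offDiag, 2 * (B + 1) * (g p * log (g p) - g p + 1) =
      2 * (B + 1) * (n * (n - 1) / T * HH S F ν) := by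
    rw [← mul_sum, sum_add_distrib, sum_sub_distrib, hgs, sum_const, nsmul_eq_mul, hcard]
    have h3 : ∑ p ∈ S.offDiag, g p * log (g p) = n * (n - 1) / T * HH S F ν := by
      unfold HH
      rw [mul_sum]
      refine sum_congr rfl fun p _ => ?_
      rcases (PP_nonneg (S := S) hν p).eq_or_lt with h4 | h4
      · rw [hg]
        dsimp only
        rw [← h4]
        simp
      · have h5 : log (g p) = log (PP S F ν p) + log (n * (n - 1)) - log T := by
          rw [hg]
          dsimp only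
          rw [Real.log_div (by positivity) hT.ne', Real.log_mul hN.ne' h4.ne']
          ring
        rw [h5, hg]
        dsimp only
        ring
    rw [h3]
    ring
  rw [hl, hr2] at h1
  have h6 := mul_le_mul_of_nonneg_left h1 (by positivity : (0 : ℝ) ≤ T / (n * (n - 1)))
  have h7 : T / (n * (n - 1)) * ((n * (n - 1)) ^ 2 * (∑ p ∈ S.offDiag, PP S F ν p ^ 2) / T ^ 2 -
      n * (n - 1)) = n * (n - 1) * (∑ p ∈ S.offDiag, PP S F ν p ^ 2) / T - T := by
    generalize n * (n - 1) = N at hN ⊢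
    field_simp
  have h8 : T / (n * (n - 1)) * (2 * (B + 1) * (n * (n - 1) / T * HH S F ν)) =
      2 * (B + 1) * HH S F ν := by
    generalize n * (n - 1) = N at hN ⊢
    field_simp
  rw [h7, h8] at h6
  exact h6

omit [DecidableEq α] in
theorem TT_eq_zero {F : Finset (Finset α)} {ν : Finset α → ℝ} (hν : ∀ A ∈ F, 0 ≤ ν A)
    (hT : TT F ν = 0) : ∀ A ∈ F, ν A = 0 := by
  intro A hA
  exact (sum_eq_zero_iff_of_nonneg hν).1 hT A hA

theorem HH_nonneg {S : Finset α} {F : Finset (Finset α)} {ν : Finset α → ℝ} {r : ℕ} (hr : 1 ≤ r)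
    (hν : ∀ A ∈ F, 0 ≤ ν A) (hs : ∀ A ∈ F, r ≤ rk S A ∧ rk S A + r ≤ S.card) :
    0 ≤ HH S F ν := by
  rcases (show 0 ≤ TT F ν from sum_nonneg hν).eq_or_lt with h0 | h0
  · have h1 := TT_eq_zero hν h0.symm
    unfold HH
    refine (sum_eq_zero fun p _ => ?_).ge
    have h2 : PP S F ν p = 0 := sum_eq_zero fun A hA => by
      unfold wt
      rw [h1 A (mem_filter.1 hA).1, zero_div]
    rw [h2, zero_mul]
  · have h1 := sq_PP_le hr hν hs h0 le_rfl
    have h2 := sq_sum_le_card_mul_sum_sq (s := S.offDiag) (f := PP S F ν)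
    have hcard : ((S.offDiag.card : ℕ) : ℝ) = (S.card : ℝ) * ((S.card : ℝ) - 1) := by
      rw [offDiag_card, Nat.cast_sub (Nat.le_mul_self _)]
      push_cast
      ring
    rw [hcard, sum_PP hr hs] at h2
    have h3 : 0 ≤ (S.card : ℝ) * ((S.card : ℝ) - 1) * (∑ p ∈ S.offDiag, PP S F ν p ^ 2) /
        TT F ν - TT F ν := by
      rw [sub_nonneg, le_div_iff₀ h0]
      nlinarith
    have h4 := h3.trans h1
    obtain ⟨A0, hA0⟩ : F.Nonempty := by
      rcases F.eq_empty_or_nonempty with h | h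
      · exfalso
        rw [h, TT, sum_empty] at h0
        exact lt_irrefl _ h0
      · exact h
    have hr1 : (1 : ℝ) ≤ r := by exact_mod_cast hr
    have hn : (r : ℝ) + r ≤ S.card := by
      have := hs A0 hA0
      have : r + r ≤ S.card := by omega
      exact_mod_cast this
    have h5 : 0 < 2 * ((S.card : ℝ) * ((S.card : ℝ) - 1) / ((r : ℝ) * ((S.card : ℝ) - r)) + 1) := by
      have h6 : 0 ≤ (S.card : ℝ) * ((S.card : ℝ) - 1) / ((r : ℝ) * ((S.card : ℝ) - r)) := by
        apply div_nonneg <;> apply mul_nonneg <;> linarith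
      linarith
    exact nonneg_of_mul_nonneg_right h4 h5

theorem contraction {S : Finset α} {F : Finset (Finset α)} {ν : Finset α → ℝ} {r : ℕ}
    (hr : 1 ≤ r) (hν : ∀ A ∈ F, 0 ≤ ν A)
    (hs : ∀ A ∈ F, r + 1 ≤ rk S A ∧ rk S A + (r + 1) ≤ S.card) {B : ℝ}
    (hB : (S.card : ℝ) * ((S.card : ℝ) - 1) /
      (((r + 1 : ℕ) : ℝ) * ((S.card : ℝ) - ((r + 1 : ℕ) : ℝ))) ≤ B) :
    (1 - 4 * (B + 1) / (((S.card : ℝ) - 2) * ((S.card : ℝ) - 3))) * HH S F ν ≤
      ∑ p ∈ S.offDiag, HH (rem S p) (sec F p) (wt S ν) := by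
  rcases (show 0 ≤ TT F ν from sum_nonneg hν).eq_or_lt with h0 | hT
  · have h1 := TT_eq_zero hν h0.symm
    have h2 : HH S F ν = 0 := by
      unfold HH
      refine sum_eq_zero fun p _ => ?_
      have h2 : PP S F ν p = 0 := sum_eq_zero fun A hA => by
        unfold wt
        rw [h1 A (mem_filter.1 hA).1, zero_div]
      rw [h2, zero_mul]
    rw [h2, mul_zero]
    refine sum_nonneg fun p hp => ?_
    exact HH_nonneg hr (fun A hA => wt_nonneg (hν A (mem_filter.1 hA).1)) (sizes_rem hp hs)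
  · set n : ℝ := (S.card : ℝ) with hn
    set T := TT F ν with hTdef
    obtain ⟨A0, hA0⟩ : F.Nonempty := by
      rcases F.eq_empty_or_nonempty with h | h
      · exfalso
        rw [hTdef, h, TT, sum_empty] at hT
        exact lt_irrefl _ hT
      · exact h
    have hn4 : (4 : ℝ) ≤ n := by
      have h1 := hs A0 hA0
      have : 4 ≤ S.card := by omega
      rw [hn]
      exact_mod_cast this
    have hN : 0 < n * (n - 1) := by apply mul_pos <;> linarith
    have hM : 0 < (n - 2) * (n - 3) := by apply mul_pos <;> linarith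
    set M := (n - 2) * (n - 3) with hMdef
    have hs' : ∀ A ∈ F, r ≤ rk S A ∧ rk S A + r ≤ S.card := fun A hA => by
      have := hs A hA
      omega
    have hPP := PP_nonneg (S := S) (ν := ν) hν
    -- the mass
    have hmass : ∑ p ∈ S.offDiag, ∑ q ∈ (rem S p).offDiag, JJ S F ν p q = T := by
      rw [sum_congr rfl fun p hp => sum_JJ (ν := ν) hr hs hp]
      exact sum_PP hr hs'
    have hJ0 : ∀ p q, 0 ≤ JJ S F ν p q := fun p q =>
      PP_nonneg (fun A hA => wt_nonneg (hν A (mem_filter.1 hA).1)) q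
    -- HH S F ν in terms of J
    set c : α × α → ℝ := fun p => log (PP S F ν p) + log (n * (n - 1)) - log T with hc
    have hH : HH S F ν = ∑ p ∈ S.offDiag, ∑ q ∈ (rem S p).offDiag, JJ S F ν p q * c q := by
      have h1 : HH S F ν = ∑ p ∈ S.offDiag, ∑ q ∈ (rem S p).offDiag, JJ S F ν p q * c p := by
        unfold HH
        refine sum_congr rfl fun p hp => ?_
        rw [← sum_mul, sum_JJ (ν := ν) hr hs hp]
      rw [h1, sum_D_symm S fun p q => JJ S F ν p q * c p]
      refine sum_congr rfl fun p hp => sum_congr rfl fun q hq => ?_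
      rw [JJ_symm hp hq]
    have hHs : ∑ p ∈ S.offDiag, HH (rem S p) (sec F p) (wt S ν) =
        ∑ p ∈ S.offDiag, ∑ q ∈ (rem S p).offDiag, JJ S F ν p q *
          (log (JJ S F ν p q) + log M - log (PP S F ν p)) := by
      refine sum_congr rfl fun p hp => ?_
      unfold HH
      refine sum_congr rfl fun q _ => ?_
      have h1 := card_rem hp
      have h2 : ((rem S p).card : ℝ) = n - 2 := by
        rw [hn, ← h1]
        push_cast
        ring
      have h3 : (n - 2) * (n - 2 - 1) = M := by rw [hMdef]; ring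
      rw [h2, h3]
      rfl
    -- the pointwise inequality
    set κ := n * (n - 1) / (M * T) with hκ
    have hpt : ∀ p ∈ S.offDiag, ∀ q ∈ (rem S p).offDiag,
        JJ S F ν p q - κ * (PP S F ν p * PP S F ν q) ≤
          JJ S F ν p q * (log (JJ S F ν p q) + log M - log (PP S F ν p)) -
            JJ S F ν p q * c q := by
      intro p hp q hq
      rcases (hJ0 p q).eq_or_lt with h1 | h1
      · rw [← h1]
        have h2 : 0 ≤ κ * (PP S F ν p * PP S F ν q) := by
          have := hPP p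
          have := hPP q
          positivity
        linarith
      · have hPp : 0 < PP S F ν p := by
          rw [← sum_JJ (ν := ν) hr hs hp]
          exact lt_of_lt_of_le h1 (single_le_sum (fun q _ => hJ0 p q) hq)
        have hPq : 0 < PP S F ν q := by
          have h2 := mem_D.1 ⟨hp, hq⟩
          rw [← sum_JJ (ν := ν) hr hs h2.1]
          rw [JJ_symm hp hq] at h1
          exact lt_of_lt_of_le h1 (single_le_sum (fun p _ => hJ0 q p) h2.2)
        have h3 := one_sub_inv_le (JJ S F ν p q * M * T / (PP S F ν p * PP S F ν q *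
          (n * (n - 1)))) (by positivity)
        rw [Real.log_div (by positivity) (by positivity), Real.log_mul (by positivity) hT.ne',
          Real.log_mul h1.ne' hM.ne', Real.log_mul (by positivity) hN.ne',
          Real.log_mul hPp.ne' hPq.ne'] at h3
        have h4 := mul_le_mul_of_nonneg_left h3 h1.le
        have h5 : JJ S F ν p q * (1 - 1 / (JJ S F ν p q * M * T / (PP S F ν p * PP S F ν q *
            (n * (n - 1))))) = JJ S F ν p q - κ * (PP S F ν p * PP S F ν q) := by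
          rw [hκ]
          generalize n * (n - 1) = N at hN ⊢
          field_simp
        rw [h5] at h4
        refine h4.trans (le_of_eq ?_)
        rw [hc]
        ring
    have hsum := sum_le_sum fun p hp => sum_le_sum fun q hq => hpt p hp q hq
    simp_rw [sum_sub_distrib] at hsum
    rw [hmass, ← hHs, ← hH] at hsum
    have hk : ∑ p ∈ S.offDiag, ∑ q ∈ (rem S p).offDiag, κ * (PP S F ν p * PP S F ν q) =
        κ * ∑ p ∈ S.offDiag, ∑ q ∈ (rem S p).offDiag, PP S F ν p * PP S F ν q := by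
      simp_rw [mul_sum]
    rw [hk] at hsum
    have hdis := sum_disjoint_le S (by
      have h1 := hs A0 hA0
      omega) (PP S F ν)
    rw [sum_PP hr hs'] at hdis
    have hκ0 : 0 ≤ κ := by rw [hκ]; positivity
    have h1 := mul_le_mul_of_nonneg_left hdis hκ0
    have h2 := sq_PP_le (r := r + 1) (by omega) hν hs hT hB
    set Q := ∑ p ∈ S.offDiag, PP S F ν p ^ 2 with hQ
    -- arithmetic
    have h3 : T - κ * (T ^ 2 * (1 - 4 / n) + 2 * Q) =
        -(2 / M) * (n * (n - 1) * Q / T - T) := by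
      rw [hκ]
      have hn0 : n ≠ 0 := by linarith
      have h4 : n * (n - 1) / (M * T) * (T ^ 2 * (1 - 4 / n) + 2 * Q) =
          ((n - 1) * (n - 4) * T + 2 * (n * (n - 1)) * Q / T) / M := by
        field_simp
      have h5 : (n - 1) * (n - 4) = M - 2 := by rw [hMdef]; ring
      rw [h4, h5]
      generalize n * (n - 1) = N
      field_simp
      ring
    have h4 : -(2 / M) * (n * (n - 1) * Q / T - T) ≥ -(2 / M) * (2 * (B + 1) * HH S F ν) := by
      have h5 : 0 ≤ 2 / M := by positivity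
      have h6 := mul_le_mul_of_nonneg_left h2 h5
      linarith
    have h5 : (1 - 4 * (B + 1) / ((n - 2) * (n - 3))) * HH S F ν =
        HH S F ν + -(2 / M) * (2 * (B + 1) * HH S F ν) := by
      rw [← hMdef]
      ring
    rw [h5]
    linarith

/-- the constant of (VE): number of steps with the contraction factors -/
noncomputable def th : ℕ → ℕ → ℝ
  | _, 0 => 0
  | n, r + 1 => 1 + th (n - 2) r * max 0 (1 - 4 * ((n : ℝ) * ((n : ℝ) - 1) /
      (((r + 1 : ℕ) : ℝ) * ((n : ℝ) - ((r + 1 : ℕ) : ℝ))) + 1) / (((n : ℝ) - 2) * ((n : ℝ) - 3)))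

theorem th_nonneg (n r : ℕ) : 0 ≤ th n r := by
  induction r generalizing n with
  | zero => exact le_rfl
  | succ r ih =>
    rw [th]
    have := ih (n - 2)
    positivity

/-- (VE), entropy form -/
theorem ve {r : ℕ} {S : Finset α} {F : Finset (Finset α)} {ν : Finset α → ℝ} (hF : Rel S F)
    (hν : ∀ A ∈ F, 0 ≤ ν A) (hs : ∀ A ∈ F, r ≤ rk S A ∧ rk S A + r ≤ S.card) :
    th S.card r * HH S F ν ≤ DD S F ν := by
  induction r generalizing S F ν with
  | zero =>
    rw [th, zero_mul]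
    exact DD_nonneg hF hν
  | succ r ih =>
    rw [chain_rule (r := r + 1) (by omega) hν hs]
    have h1 : ∀ p ∈ S.offDiag, th (S.card - 2) r * HH (rem S p) (sec F p) (wt S ν) ≤
        DD (rem S p) (sec F p) (wt S ν) := by
      intro p hp
      have h2 := ih (hF.sec p) (ν := wt S ν)
        (fun A hA => wt_nonneg (hν A (mem_filter.1 hA).1)) (sizes_rem hp hs)
      have h3 : (rem S p).card = S.card - 2 := by
        have := card_rem hp
        omega
      rw [h3] at h2
      exact h2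
    have h2 := sum_le_sum h1
    rw [← mul_sum] at h2
    rcases Nat.eq_zero_or_pos r with h0 | h0
    · subst h0
      rw [th, th, zero_mul, add_zero, one_mul]
      rw [th, zero_mul] at h2
      linarith
    · have h3 := contraction (by omega : 1 ≤ r) hν hs le_rfl
      have h4 : 0 ≤ ∑ p ∈ S.offDiag, HH (rem S p) (sec F p) (wt S ν) :=
        sum_nonneg fun p hp => HH_nonneg (by omega : 1 ≤ r)
          (fun A hA => wt_nonneg (hν A (mem_filter.1 hA).1)) (sizes_rem hp hs)
      have h5 := HH_nonneg (by omega : 1 ≤ r + 1) hν hs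
      have h6 : max 0 (1 - 4 * ((S.card : ℝ) * ((S.card : ℝ) - 1) /
          (((r + 1 : ℕ) : ℝ) * ((S.card : ℝ) - ((r + 1 : ℕ) : ℝ))) + 1) /
          (((S.card : ℝ) - 2) * ((S.card : ℝ) - 3))) * HH S F ν ≤
          ∑ p ∈ S.offDiag, HH (rem S p) (sec F p) (wt S ν) := by
        rcases max_cases 0 (1 - 4 * ((S.card : ℝ) * ((S.card : ℝ) - 1) /
          (((r + 1 : ℕ) : ℝ) * ((S.card : ℝ) - ((r + 1 : ℕ) : ℝ))) + 1) /
          (((S.card : ℝ) - 2) * ((S.card : ℝ) - 3))) with h7 | h7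
        · rw [h7.1, zero_mul]
          exact h4
        · rw [h7.1]
          exact h3
      have h7 := mul_le_mul_of_nonneg_left h6 (th_nonneg (S.card - 2) r)
      rw [th, add_mul, one_mul, mul_assoc]
      linarith

end Pool.Agent.VE
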