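import Pool.Agent.VE.Core

/-!
# (VE) for the pair counts of an antichain, and an explicit bound for the constant
-/

set_option autoImplicit false

namespace Pool.Agent.VE

open Finset Real

variable {α : Type*} [DecidableEq α]

/-- `Y_xy`: the number of members with `x ∈ A`, `y ∉ A` -/
def YY (F : Finset (Finset α)) (p : α × α) : ℕ := (sec F p).card

theorem rk_of_subset {S A : Finset α} (h : A ⊆ S) : rk S A = A.card := by
  rw [rk, inter_eq_left.2 h]

theorem rel_of_antichain {S : Finset α} {F : Finset (Finset α)} (hs : ∀ A ∈ F, A ⊆ S)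
    (h : IsAntichain (· ⊆ ·) (F : Set (Finset α))) : Rel S F := by
  intro A hA B hB hAB
  rw [inter_eq_left.2 (hs A hA), inter_eq_left.2 (hs B hB)] at hAB
  by_contra hne
  exact h hA hB hne hAB

/-- (VE) for the pair counts. -/
theorem ve_pairs {r : ℕ} (hr : 1 ≤ r) {S : Finset α} {F : Finset (Finset α)}
    (hS : ∀ A ∈ F, A ⊆ S) (hF : IsAntichain (· ⊆ ·) (F : Set (Finset α))) (hne : F.Nonempty)
    (hs : ∀ A ∈ F, r ≤ A.card ∧ A.card + r ≤ S.card) (M : ℝ)
    (hM : M = (∑ p ∈ S.offDiag, (YY F p : ℝ)) / ((S.card : ℝ) * ((S.card : ℝ) - 1))) :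
    th S.card r * ∑ p ∈ S.offDiag, (YY F p : ℝ) * log (YY F p / M) ≤
      ∑ A ∈ F, (A.card : ℝ) * ((S.card : ℝ) - A.card) *
        log ((S.card - 2).choose (A.card - 1) / M) := by
  set n : ℝ := (S.card : ℝ) with hn
  set ν : Finset α → ℝ := fun A => (rk S A : ℝ) * (n - rk S A) with hν
  have hrk : ∀ A ∈ F, rk S A = A.card := fun A hA => rk_of_subset (hS A hA)
  have hs' : ∀ A ∈ F, r ≤ rk S A ∧ rk S A + r ≤ S.card := fun A hA => by
    rw [hrk A hA]
    exact hs A hA
  have hpos : ∀ A ∈ F, 0 < ν A := fun A hA => sizes_pos hr (hs' A hA).1 (hs' A hA).2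
  have hwt : ∀ A ∈ F, wt S ν A = 1 := fun A hA => div_self (hpos A hA).ne'
  have hPP : ∀ p, PP S F ν p = YY F p := by
    intro p
    have h2 : ∑ A ∈ sec F p, wt S ν A = ∑ A ∈ sec F p, (1 : ℝ) :=
      sum_congr rfl fun A hA => hwt A (mem_filter.1 hA).1
    unfold PP TT YY
    rw [h2, sum_const, nsmul_eq_mul, mul_one]
  have hT : TT F ν = ∑ p ∈ S.offDiag, (YY F p : ℝ) := by
    rw [← sum_PP hr hs']
    exact sum_congr rfl fun p _ => hPP p
  have hTpos : 0 < TT F ν := sum_pos hpos hne
  obtain ⟨A0, hA0⟩ := hne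
  have hn2 : (2 : ℝ) ≤ n := by
    have h1 := hs A0 hA0
    have : 2 ≤ S.card := by omega
    rw [hn]
    exact_mod_cast this
  have hN : 0 < n * (n - 1) := by apply mul_pos <;> linarith
  have hMpos : 0 < M := by
    rw [hM, ← hT]
    positivity
  have hMl : log M = log (TT F ν) - log (n * (n - 1)) := by
    rw [hM, ← hT, Real.log_div hTpos.ne' hN.ne']
  have h := ve (rel_of_antichain hS hF) (fun A hA => (hpos A hA).le) hs'
  have hH : HH S F ν = ∑ p ∈ S.offDiag, (YY F p : ℝ) * log (YY F p / M) := by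
    unfold HH
    refine sum_congr rfl fun p _ => ?_
    rw [hPP p]
    rcases (Nat.cast_nonneg (YY F p) : (0 : ℝ) ≤ YY F p).eq_or_lt with h1 | h1
    · rw [← h1, zero_mul, zero_mul]
    · rw [Real.log_div h1.ne' hMpos.ne', hMl]
      ring
  have hD : DD S F ν = ∑ A ∈ F, (A.card : ℝ) * (n - A.card) *
      log ((S.card - 2).choose (A.card - 1) / M) := by
    unfold DD
    refine sum_congr rfl fun A hA => ?_
    obtain ⟨ha1, ha2⟩ := hs A hA
    have hc1 : (0 : ℝ) < ((S.card - 2).choose (A.card - 1) : ℝ) := by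
      exact_mod_cast Nat.choose_pos (by omega)
    have hc2 : (0 : ℝ) < (S.card.choose A.card : ℝ) := by
      exact_mod_cast Nat.choose_pos (by omega)
    have hp := hpos A hA
    have hp' : 0 < (A.card : ℝ) * (n - A.card) := by
      have := hp
      rw [hν] at this
      dsimp only at this
      rwa [hrk A hA] at this
    have hid := choose_id (n := S.card) (a := A.card) (by omega) (by omega)
    have hl := congrArg Real.log hid
    rw [Real.log_mul hc1.ne' hN.ne', Real.log_mul hc2.ne' hp'.ne'] at hl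
    have hv : ν A = (A.card : ℝ) * (n - A.card) := by
      rw [hν]
      dsimp only
      rw [hrk A hA]
    rw [hv, hrk A hA, Real.log_div hc1.ne' hMpos.ne', hMl]
    congr 1
    linarith
  rw [hH, hD] at h
  exact h

/-- explicit bounds for the constant of (VE) -/
theorem th_bounds (m r : ℕ) : (r : ℝ) * (1 - 20 / ((m : ℝ) + 1)) ≤ th (2 * r + m) r ∧
    th (2 * r + m) r ≤ r := by
  induction r with
  | zero => simp [th]
  | succ r ih =>
    obtain ⟨ih1, ih2⟩ := ih
    have hn : 2 * (r + 1) + m - 2 = 2 * r + m := by omega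
    set n : ℝ := ((2 * (r + 1) + m : ℕ) : ℝ) with hnd
    have hnv : n = 2 * (r + 1) + m := by rw [hnd]; push_cast; ring
    have hr0 : (0 : ℝ) ≤ r := Nat.cast_nonneg r
    have hm0 : (0 : ℝ) ≤ m := Nat.cast_nonneg m
    have hth : th (2 * (r + 1) + m) (r + 1) = 1 + th (2 * r + m) r * max 0 (1 - 4 * (n * (n - 1) /
      (((r + 1 : ℕ) : ℝ) * (n - ((r + 1 : ℕ) : ℝ))) + 1) / ((n - 2) * (n - 3))) := by
      rw [th, hn]
    set ε := 4 * (n * (n - 1) / (((r + 1 : ℕ) : ℝ) * (n - ((r + 1 : ℕ) : ℝ))) + 1) /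
      ((n - 2) * (n - 3)) with hε
    have hθ := th_nonneg (2 * r + m) r
    rcases Nat.eq_zero_or_pos r with h0 | h0
    · subst h0
      have h1 : th (2 * 0 + m) 0 = 0 := rfl
      rw [hth, h1, zero_mul, add_zero]
      push_cast
      constructor
      · have : (0 : ℝ) ≤ 20 / ((m : ℝ) + 1) := by positivity
        linarith
      · norm_num
    · have hr1 : (1 : ℝ) ≤ r := by exact_mod_cast h0
      have hM : 0 < (n - 2) * (n - 3) := by rw [hnv]; apply mul_pos <;> linarith
      have hden : 0 < ((r + 1 : ℕ) : ℝ) * (n - ((r + 1 : ℕ) : ℝ)) := by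
        push_cast
        rw [hnv]
        apply mul_pos <;> linarith
      have hN : 0 < n * (n - 1) := by rw [hnv]; apply mul_pos <;> linarith
      have hε0 : 0 ≤ ε := by rw [hε]; positivity
      -- `r ε ≤ 20 / (m + 1)`
      have hrε : (r : ℝ) * ε ≤ 20 / ((m : ℝ) + 1) := by
        have h1 : ((r : ℝ) + 1) * ε = 4 * (n * (n - 1) / (n - (r + 1)) + (r + 1)) /
            ((n - 2) * (n - 3)) := by
          rw [hε]
          push_cast
          have h2 : n - ((r : ℝ) + 1) ≠ 0 := by rw [hnv]; nlinarith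
          have h3 : (r : ℝ) + 1 ≠ 0 := by positivity
          field_simp
        have h2 : (r : ℝ) * ε ≤ ((r : ℝ) + 1) * ε := by nlinarith
        refine h2.trans ?_
        rw [h1]
        have h4 : n * (n - 1) / (n - (r + 1)) ≤ 2 * (n - 1) := by
          rw [div_le_iff₀ (by rw [hnv]; linarith)]
          rw [hnv]
          nlinarith
        have h5 : (r : ℝ) + 1 ≤ n / 2 := by rw [hnv]; linarith
        have h6 : 4 * (n * (n - 1) / (n - (r + 1)) + (r + 1)) ≤ 10 * n := by linarith
        calc 4 * (n * (n - 1) / (n - (r + 1)) + (r + 1)) / ((n - 2) * (n - 3))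
            ≤ 10 * n / ((n - 2) * (n - 3)) := by
              exact div_le_div_of_nonneg_right h6 hM.le
          _ ≤ 20 / ((m : ℝ) + 1) := by
              rw [div_le_div_iff₀ hM (by positivity)]
              have h7 : (m : ℝ) + 1 ≤ n - 3 := by rw [hnv]; linarith
              have h8 : (4 : ℝ) ≤ n := by rw [hnv]; linarith
              nlinarith
      have hmax : 1 - ε ≤ max 0 (1 - ε) := le_max_right _ _
      have hmax1 : max 0 (1 - ε) ≤ 1 := max_le (by norm_num) (by linarith)
      rw [hth]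
      push_cast
      constructor
      · have h1 : th (2 * r + m) r * (1 - ε) ≤ th (2 * r + m) r * max 0 (1 - ε) :=
          mul_le_mul_of_nonneg_left hmax hθ
        have h2 : th (2 * r + m) r * ε ≤ r * ε := mul_le_mul_of_nonneg_right ih2 hε0
        nlinarith
      · have h1 : th (2 * r + m) r * max 0 (1 - ε) ≤ th (2 * r + m) r * 1 :=
          mul_le_mul_of_nonneg_left hmax1 hθ
        linarith

end Pool.Agent.VE
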